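import Pool.Agent.MP_fcd29e_an.H11.CS

/-! Charts of the flat bundle at the poles. -/

set_option autoImplicit false

open Complex Set Filter Topology Pool.Agent.MP_fcd29e_an.H11
open scoped ContDiff

namespace Pool.Agent.MP_fcd29e_an.H98

noncomputable section

namespace CX2

theorem an_comp {X Y Z : Type} [NormedAddCommGroup X] [NormedSpace ℂ X] [NormedAddCommGroup Y]
    [NormedSpace ℂ Y] [NormedAddCommGroup Z] [NormedSpace ℂ Z] (L : Y →L[ℂ] Z)
    {f : ℂ → X →L[ℂ] Y} {z₀ : ℂ} (h : AnalyticAt ℂ f z₀) :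
    AnalyticAt ℂ (fun z => L.comp (f z)) z₀ :=
  ((ContinuousLinearMap.compL ℂ X Y Z L).analyticAt _).comp h

theorem an_pi {κ X Y : Type} [Fintype κ] [NormedAddCommGroup X] [NormedSpace ℂ X]
    [NormedAddCommGroup Y] [NormedSpace ℂ Y] (f : κ → ℂ → X →L[ℂ] Y) (z₀ : ℂ)
    (h : ∀ b, AnalyticAt ℂ (f b) z₀) :
    AnalyticAt ℂ (fun z => ContinuousLinearMap.pi (fun b => f b z)) z₀ := by
  classical
  have e : (fun z => ContinuousLinearMap.pi (fun b => f b z)) =
      fun z => ∑ b, (ContinuousLinearMap.single ℂ (fun _ : κ => Y) b).comp (f b z) := by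
    funext z
    ext x b
    simp [Finset.sum_apply, Pi.single_apply]
  rw [e]
  exact Finset.analyticAt_fun_sum _ fun b _ => an_comp _ (h b)

theorem msm {r : ℕ} (X Y : EV (Fin r)) (a : ℂ) : X * (a • Y) = a • (X * Y) :=
  ContinuousLinearMap.ext fun v => map_smul X a (Y v)

theorem smm {r : ℕ} (X Y : EV (Fin r)) (a : ℂ) : (a • X) * Y = a • (X * Y) :=
  ContinuousLinearMap.ext fun _ => rfl

theorem smz {r : ℕ} (a : ℂ) : a • (0 : EV (Fin r)) = 0 :=
  ContinuousLinearMap.ext fun _ => smul_zero a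

theorem zsm {r : ℕ} (X : EV (Fin r)) : (0 : ℂ) • X = 0 :=
  ContinuousLinearMap.ext fun v => zero_smul ℂ (X v)

variable {r m : ℕ} [NeZero m] (c S : ℝ) (om : Fin m → Fin r → ℂ) (F : ℂ → EV (Fin r))

/-- A coordinate of the third block. -/
def pr (k : Fin r) : V (Fin r) →L[ℂ] ℂ :=
  (ContinuousLinearMap.proj k).comp ((ContinuousLinearMap.snd ℂ (Fin r → ℂ) (Fin r → ℂ)).comp
    (ContinuousLinearMap.snd ℂ ℂ _))

/-- The minors as linear forms. -/
def mn (i : Fin m) (l k : Fin r) : V (Fin r) →L[ℂ] ℂ :=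
  (F (tp i) (em c S (om i))).2.2 l • pr k - (F (tp i) (em c S (om i))).2.2 k • pr l

/-- The combination `a P₊ + b P₀ + d P₋`. -/
def cb (i : Fin m) (a b d : ℂ) : EV (Fin r) :=
  a • Pp c S (om i) + b • P0 c S (om i) + d • Pm c S (om i)

/-- The sections of the positive bundle in terms of the blocks. -/
def Wm (s : Option (Fin m) → ℂ) (E : Bk m → EV (Fin r)) : Wi r m → (V (Fin r) →L[ℂ] ℂ)
  | (none, k) => (pr k).comp ((s none)⁻¹ ^ (8 * m) • E none)
  | (some (i, l), k) => (mn c S om F i l k).comp ((s none)⁻¹ ^ (8 * m + 1) •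
      (F (tp i) * (s (some i) • (Pp c S (om i) * E (some (some i))) +
        s none • (P0 c S (om i) * E (some (some i))))))

/-- All blocks from the block `A` and the block at the pole `j`. -/
def Eb (j : Fin m) (s : Option (Fin m) → ℂ) (A Cj : EV (Fin r)) : Bk m → EV (Fin r)
  | none => A
  | some none => (s (some 0) / s none) ^ (4 * m) • (Q0 * A) + Qp * A +
      (s (some 0) / s none) ^ (8 * m) • (Qm * A)
  | some (some i) => if i = j then Cj else
      cb c S om i ((s none / s (some i)) ^ 2) (s none / s (some i)) 1 *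
        (Ring.inverse (F (tp i)) * A)

variable {c S om F}

theorem relW (hGR : SGR) (hax : ∀ i, Ax c S (om i)) (hF : ∀ i : Fin m, Orth (F (tp i)))
    (s : Option (Fin m) → ℂ) (hs : s none ≠ 0) (E : Bk m → EV (Fin r)) (x : V (Fin r))
    (h : RelE c S om F s (fun b => E b x)) :
    RelW c S om F s (fun b => E b x) (fun I => Wm c S om F s E I x) := by
  obtain ⟨-, -, h3, h4⟩ := h
  have hτ : (s none)⁻¹ * s none = 1 := inv_mul_cancel₀ hs
  have hT : ∀ N : ℕ, s none ^ N * (s none)⁻¹ ^ N = 1 := fun N => by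
    rw [← mul_pow, mul_inv_cancel₀ hs, one_pow]
  have w0 : ∀ k, Wm c S om F s E (none, k) x = (s none)⁻¹ ^ (8 * m) * (E none x).2.2 k :=
    fun k => rfl
  have w1 : ∀ i l k, Wm c S om F s E (some (i, l), k) x = (s none)⁻¹ ^ (8 * m + 1) *
      mnr c S om F i (F (tp i) (s (some i) • Pp c S (om i) (E (some (some i)) x) +
        s none • P0 c S (om i) (E (some (some i)) x))).2.2 l k := by
    intro i l k
    change mn c S om F i l k ((s none)⁻¹ ^ (8 * m + 1) • (F (tp i)
      (s (some i) • Pp c S (om i) (E (some (some i)) x) +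
        s none • P0 c S (om i) (E (some (some i)) x)))) = _
    rw [map_smul]
    rfl
  refine ⟨fun k => ⟨?_, ?_⟩, fun i l k => ⟨?_, ?_⟩⟩
  · simp only [w0]
    rw [← mul_assoc, hT, one_mul]
  · simp only [w0]
    have h5 : s none ^ (8 * m) * (E (some none) x).2.2 k =
        s (some 0) ^ (8 * m) * (E none x).2.2 k := congrArg (fun v : V (Fin r) => v.2.2 k) h3
    linear_combination (E (some none) x).2.2 k * hT (8 * m) - (s none)⁻¹ ^ (8 * m) * h5
  · obtain ⟨g1, g2, -⟩ := h4 i
    simp only [w1, w0]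
    set y := Ring.inverse (F (tp i)) (E none x) with hy
    have hFy : F (tp i) y = E none x := by
      have hu := ((hGR.op (Fin r)).2.2.2.2 _ (hF i)).1
      have h6 := Ring.mul_inverse_cancel _ hu
      exact congrArg (fun M : EV (Fin r) => M (E none x)) h6
    have hPm := ((hGR.vec (Fin r) c S (om i) (hax i)).2.2.2.2.2.2.2.2 y).2.1
    have hP0 : P0 c S (om i) y = y - Pp c S (om i) y - Pm c S (om i) y := rfl
    have h7 : s (some i) • (s (some i) • Pp c S (om i) (E (some (some i)) x) +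
        s none • P0 c S (om i) (E (some (some i)) x)) =
        s none ^ 2 • (y - (B y (ep c S (om i)) / 2) • em c S (om i)) := by
      rw [smul_add, smul_smul, ← sq, g1, smul_comm (s (some i)) (s none), g2, smul_smul, ← sq,
        ← smul_add, hP0, hPm]
      congr 1
      abel
    have h8 := congrArg (F (tp i)) h7
    rw [map_smul, map_smul, map_sub, map_smul, hFy] at h8
    have h9 : ∀ a, s (some i) * (F (tp i) (s (some i) • Pp c S (om i) (E (some (some i)) x) +
        s none • P0 c S (om i) (E (some (some i)) x))).2.2 a = s none ^ 2 *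
        ((E none x).2.2 a - (B y (ep c S (om i)) / 2) * (F (tp i) (em c S (om i))).2.2 a) :=
      fun a => congrArg (fun v : V (Fin r) => v.2.2 a) h8
    unfold mnr
    linear_combination
      ((s none)⁻¹ ^ (8 * m + 1) * (F (tp i) (em c S (om i))).2.2 l) * h9 k -
      ((s none)⁻¹ ^ (8 * m + 1) * (F (tp i) (em c S (om i))).2.2 k) * h9 l +
      ((s none)⁻¹ ^ (8 * m) * s none * ((F (tp i) (em c S (om i))).2.2 l * (E none x).2.2 k -
        (F (tp i) (em c S (om i))).2.2 k * (E none x).2.2 l)) * hτ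
  · simp only [w1]
    rw [← mul_assoc, hT, one_mul]

theorem cb_mul (hGR : SGR) {i : Fin m} (hax : Ax c S (om i)) (a b d a' b' d' : ℂ) :
    cb c S om i a b d * cb c S om i a' b' d' = cb c S om i (a * a') (b * b') (d * d') := by
  obtain ⟨p1, p2, p3, p4, p5, p6, p7, p8, p9⟩ := hGR.prj (Fin r) c S (om i) hax
  simp only [cb, add_mul, mul_add, smm, msm, smul_smul, p1, p2, p3, p4, p5, p6, p7, p8, p9,
    smz, add_zero, zero_add, mul_comm a', mul_comm b', mul_comm d']

theorem cb_one (i : Fin m) (a : ℂ) : cb c S om i a a a = a • (1 : EV (Fin r)) := by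
  simp only [cb, P0]
  module

theorem cb_prj (hGR : SGR) {i : Fin m} (hax : Ax c S (om i)) (a b d : ℂ) (v : V (Fin r)) :
    Pp c S (om i) (cb c S om i a b d v) = a • Pp c S (om i) v ∧
    P0 c S (om i) (cb c S om i a b d v) = b • P0 c S (om i) v ∧
    Pm c S (om i) (cb c S om i a b d v) = d • Pm c S (om i) v := by
  obtain ⟨p1, p2, p3, p4, p5, p6, p7, p8, p9⟩ := hGR.prj (Fin r) c S (om i) hax
  have e1 : Pp c S (om i) * cb c S om i a b d = a • Pp c S (om i) := by
    simp only [cb, mul_add, msm, p1, p4, p6, smz, add_zero]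
  have e2 : P0 c S (om i) * cb c S om i a b d = b • P0 c S (om i) := by
    simp only [cb, mul_add, msm, p3, p7, p9, smz, add_zero, zero_add]
  have e3 : Pm c S (om i) * cb c S om i a b d = d • Pm c S (om i) := by
    simp only [cb, mul_add, msm, p2, p5, p8, smz, add_zero, zero_add]
  exact ⟨congrArg (fun M : EV (Fin r) => M v) e1, congrArg (fun M : EV (Fin r) => M v) e2,
    congrArg (fun M : EV (Fin r) => M v) e3⟩

theorem relE (hGR : SGR) (hax : ∀ i, Ax c S (om i)) (j : Fin m) (s : Option (Fin m) → ℂ)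
    (hs : s none ≠ 0) (hi : ∀ i, i ≠ j → s (some i) ≠ 0) (A Cj : EV (Fin r))
    (h : cb c S om j ((s (some j) / s none) ^ 2) (s (some j) / s none) 1 * Cj =
      Ring.inverse (F (tp j)) * A) (x : V (Fin r)) :
    RelE c S om F s (fun b => Eb c S om F j s A Cj b x) := by
  have hb : Eb c S om F j s A Cj (some none) x = ((s (some 0) / s none) ^ (4 * m) * (A x).1,
      (A x).2.1, (s (some 0) / s none) ^ (8 * m) • (A x).2.2) := by
    change (s (some 0) / s none) ^ (4 * m) • Q0 (A x) + Qp (A x) +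
      (s (some 0) / s none) ^ (8 * m) • Qm (A x) = _
    obtain ⟨b1, b2, b3, -⟩ := hGR.blk (Fin r) (A x) 1
    rw [b1, b2, b3]
    simp
  have hp : ∀ N : ℕ, s none ^ N * (s (some 0) / s none) ^ N = s (some 0) ^ N := fun N => by
    rw [← mul_pow, mul_div_cancel₀ _ hs]
  have h0 : Eb c S om F j s A Cj none x = A x := rfl
  refine ⟨?_, ?_, ?_, fun i => ?_⟩
  · simp only [hb, h0, (hGR.blk (Fin r) _ 1).1, Prod.smul_mk, smul_zero, smul_eq_mul]
    rw [← mul_assoc, hp]
  · simp only [hb, h0, (hGR.blk (Fin r) _ 1).2.1]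
  · simp only [hb, h0, (hGR.blk (Fin r) _ 1).2.2.1, Prod.smul_mk, smul_zero, smul_smul, hp]
  · by_cases hij : i = j
    · subst hij
      have e1 : Eb c S om F i s A Cj (some (some i)) x = Cj x := by simp [Eb]
      have e2 : Ring.inverse (F (tp i)) (A x) =
          cb c S om i ((s (some i) / s none) ^ 2) (s (some i) / s none) 1 (Cj x) :=
        (congrArg (fun M : EV (Fin r) => M x) h).symm
      obtain ⟨q1, q2, q3⟩ := cb_prj hGR (hax i) ((s (some i) / s none) ^ 2) (s (some i) / s none)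
        1 (Cj x)
      simp only [e1, h0, e2, q1, q2, q3, smul_smul, one_smul, and_true]
      refine ⟨?_, ?_⟩ <;> congr 1 <;> field_simp
    · have e1 : Eb c S om F j s A Cj (some (some i)) x =
          cb c S om i ((s none / s (some i)) ^ 2) (s none / s (some i)) 1
            (Ring.inverse (F (tp i)) (A x)) := by
        simp only [Eb, if_neg hij]
        rfl
      obtain ⟨q1, q2, q3⟩ := cb_prj hGR (hax i) ((s none / s (some i)) ^ 2) (s none / s (some i))
        1 (Ring.inverse (F (tp i)) (A x))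
      have := hi i hij
      simp only [e1, h0, q1, q2, q3, smul_smul, one_smul, and_true]
      refine ⟨?_, ?_⟩ <;> congr 1 <;> field_simp

theorem an_cb (i : Fin m) {a b d : ℂ → ℂ} {z₀ : ℂ} (ha : AnalyticAt ℂ a z₀)
    (hb : AnalyticAt ℂ b z₀) (hd : AnalyticAt ℂ d z₀) :
    AnalyticAt ℂ (fun z => cb c S om i (a z) (b z) (d z)) z₀ :=
  ((ha.smul analyticAt_const).add (hb.smul analyticAt_const)).add (hd.smul analyticAt_const)

theorem an_Eb (j : Fin m) {s : ℂ → Option (Fin m) → ℂ} {z₀ : ℂ}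
    (hs : ∀ o, AnalyticAt ℂ (fun z => s z o) z₀) (h0 : s z₀ none ≠ 0)
    (hi : ∀ i, i ≠ j → s z₀ (some i) ≠ 0) {A Cj : ℂ → EV (Fin r)} (hA : AnalyticAt ℂ A z₀)
    (hC : AnalyticAt ℂ Cj z₀) (b : Bk m) :
    AnalyticAt ℂ (fun z => Eb c S om F j (s z) (A z) (Cj z) b) z₀ := by
  rcases b with _ | _ | i
  · exact hA
  · have h1 : AnalyticAt ℂ (fun z => s z (some 0) / s z none) z₀ := (hs _).fun_div (hs _) h0
    exact (((h1.fun_pow _).smul (analyticAt_const.mul hA)).add (analyticAt_const.mul hA)).add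
      ((h1.fun_pow _).smul (analyticAt_const.mul hA))
  · by_cases hij : i = j
    · simpa only [Eb, if_pos hij] using hC
    · have h1 : AnalyticAt ℂ (fun z => s z none / s z (some i)) z₀ :=
        (hs _).fun_div (hs _) (hi i hij)
      simp only [Eb, if_neg hij]
      exact (an_cb i (h1.fun_pow _) h1 analyticAt_const).mul (analyticAt_const.mul hA)

theorem an_Wm {s : ℂ → Option (Fin m) → ℂ} {z₀ : ℂ}
    (hs : ∀ o, AnalyticAt ℂ (fun z => s z o) z₀) (h0 : s z₀ none ≠ 0)
    {E : ℂ → Bk m → EV (Fin r)} (hE : ∀ b, AnalyticAt ℂ (fun z => E z b) z₀) (I : Wi r m) :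
    AnalyticAt ℂ (fun z => Wm c S om F (s z) (E z) I) z₀ := by
  have h1 : AnalyticAt ℂ (fun z => (s z none)⁻¹) z₀ := (hs _).fun_inv h0
  obtain ⟨_ | ⟨i, l⟩, k⟩ := I
  · exact an_comp _ ((h1.fun_pow _).smul (hE _))
  · exact an_comp _ ((h1.fun_pow _).smul (analyticAt_const.mul
      (((hs _).smul (analyticAt_const.mul (hE _))).add ((hs _).smul (analyticAt_const.mul (hE _))))))

theorem key (hGR : SGR) {j : Fin m} (hax : Ax c S (om j)) (hF : Orth (F (tp j))) {n : ℕ}
    (hn : 3 ≤ n) (u k : ℂ) :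
    cb c S om j (u ^ 2) u 1 * (k • (1 + u ^ (n - 2) • (cb c S om j 1 u (u ^ 2) *
      (Ring.inverse (F (tp j)) * (dslope F (tp j) (tp j + u ^ n) * cb c S om j (u ^ 2) u 1))))) =
    Ring.inverse (F (tp j)) * (k • (F (tp j + u ^ n) * cb c S om j (u ^ 2) u 1)) := by
  have hu := ((hGR.op (Fin r)).2.2.2.2 _ hF).1
  have h1 := Ring.inverse_mul_cancel _ hu
  have h2 : F (tp j + u ^ n) = F (tp j) + u ^ n • dslope F (tp j) (tp j + u ^ n) := by
    have h := sub_smul_dslope F (tp j) (tp j + u ^ n)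
    rw [add_sub_cancel_left] at h
    rw [h]
    abel
  have h3 : cb c S om j (u ^ 2) u 1 * cb c S om j 1 u (u ^ 2) = u ^ 2 • (1 : EV (Fin r)) := by
    rw [cb_mul hGR hax, mul_one, one_mul, ← sq, cb_one]
  have h4 : u ^ (n - 2) * u ^ 2 = u ^ n := by
    rw [← pow_add, Nat.sub_add_cancel (by omega)]
  rw [msm, msm, mul_add, mul_one, msm, ← mul_assoc, h3,
    smm, one_mul, smul_smul, h4, h2, add_mul, mul_add, ← mul_assoc _ (F (tp j)), h1,
    one_mul, smm, msm]

end CX2

open CX2

theorem sx2 (hLV : SLV) (hGR : SGR) (hXU : SXU) (hX0 : SX0) : SX2 := by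
  intro r m n _ C c S om F Fi Fr fc fi fh hn hB hFr hP s z₀ hs hX hI j hj
  have hax := hB.ax
  have hFt : ∀ i : Fin m, AnalyticAt ℂ F (tp i) ∧ Orth (F (tp i)) :=
    fun i => hFr.an i (tp i) (by simp)
  obtain ⟨h0, hi⟩ := (hXU r m n (by omega) (s z₀) hX.self_of_nhds).2.1 j hj
  have hso : ∀ o, AnalyticAt ℂ (fun z => s z o) z₀ := analyticAt_pi_iff.mp hs
  have hd := (hX0 r m n (by omega) s z₀ hs hX hI).1 j h0 hi
  set u : ℂ → ℂ := fun z => s z (some j) / s z none with hu
  have hua : AnalyticAt ℂ u z₀ := (hso _).fun_div (hso _) h0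
  have hu0 : u z₀ ^ n = 0 := by
    simp only [hu, hj, zero_div]
    exact zero_pow (by omega)
  have hta : AnalyticAt ℂ (fun z => tp j + u z ^ n) z₀ := analyticAt_const.add (hua.fun_pow _)
  have hFa : AnalyticAt ℂ (fun z => F (tp j + u z ^ n)) z₀ :=
    AnalyticAt.comp_of_eq (hFt j).1 hta (by simp only [hu0, add_zero])
  have hXa : AnalyticAt ℂ (fun z => dslope F (tp j) (tp j + u z ^ n)) z₀ := by
    obtain ⟨p, hp⟩ := (hFt j).1
    exact AnalyticAt.comp_of_eq hp.has_fpower_series_dslope_fslope.analyticAt hta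
      (by simp only [hu0, add_zero])
  set k : ℂ → ℂ := fun z => (∏ i ∈ Finset.univ.erase j, s z (some i)) * s z none ^ (4 * m + 1)
    with hk
  have hka : AnalyticAt ℂ k z₀ :=
    (Finset.analyticAt_fun_prod _ fun i _ => hso _).mul ((hso _).fun_pow _)
  have hNp : AnalyticAt ℂ (fun z => cb c S om j (u z ^ 2) (u z) 1) z₀ :=
    an_cb j (hua.fun_pow _) hua analyticAt_const
  have hNm : AnalyticAt ℂ (fun z => cb c S om j 1 (u z) (u z ^ 2)) z₀ :=
    an_cb j analyticAt_const hua (hua.fun_pow _)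
  set A : ℂ → EV (Fin r) := fun z => k z • (F (tp j + u z ^ n) * cb c S om j (u z ^ 2) (u z) 1)
    with hA
  set Cj : ℂ → EV (Fin r) := fun z => k z • (1 + u z ^ (n - 2) • (cb c S om j 1 (u z) (u z ^ 2) *
    (Ring.inverse (F (tp j)) * (dslope F (tp j) (tp j + u z ^ n) *
      cb c S om j (u z ^ 2) (u z) 1)))) with hCj
  have hAa : AnalyticAt ℂ A z₀ := hka.smul (hFa.mul hNp)
  have hCa : AnalyticAt ℂ Cj z₀ := hka.smul (analyticAt_const.add ((hua.fun_pow _).smul
    (hNm.mul (analyticAt_const.mul (hXa.mul hNp)))))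
  have hE := an_Eb (c := c) (S := S) (om := om) (F := F) j hso h0 hi hAa hCa
  refine ⟨fun z => ContinuousLinearMap.pi fun b => Eb c S om F j (s z) (A z) (Cj z) b,
    fun z => ContinuousLinearMap.pi fun I =>
      Wm c S om F (s z) (Eb c S om F j (s z) (A z) (Cj z)) I,
    fun q => fc j (u q.1, q.2), an_pi _ _ hE, an_pi _ _ (an_Wm hso h0 hE), ?_⟩
  have e1 : ∀ᶠ z in 𝓝 z₀, s z none ≠ 0 := (hso none).continuousAt.eventually_ne h0
  have e2 : ∀ᶠ z in 𝓝 z₀, ∀ i, i ≠ j → s z (some i) ≠ 0 := by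
    refine eventually_all.mpr fun i => ?_
    by_cases hij : i = j
    · exact Eventually.of_forall fun z h => absurd hij h
    · exact ((hso (some i)).continuousAt.eventually_ne (hi i hij)).mono fun z h _ => h
  have e3 : ∀ᶠ z in 𝓝 z₀, ‖u z ^ n‖ < 1 / 4 :=
    (hua.fun_pow n).continuousAt.norm.eventually_lt continuousAt_const (by
      simp only [hu0, norm_zero]
      norm_num)
  filter_upwards [hX, hd, e1, e2, e3, hua.eventually_analyticAt] with z x1 x2 x3 x4 x5 x6
  refine ⟨⟨fun x => ?_, Or.inl ⟨j, 1, (hGR.op (Fin r)).1, x3, x5, fun hz x => ?_, fun hz x => ?_,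
    fun x _ => rfl⟩⟩, fun x hx => ?_⟩
  · have h1 := relE (F := F) hGR hax j (s z) x3 x4 (A z) (Cj z)
      (key hGR (hax j) (hFt j).2 hn (u z) (k z)) x
    exact ⟨h1, relW hGR hax (fun i => (hFt i).2) (s z) x3 _ x h1⟩
  · have h1 : tp j + u z ^ n = (s z (some 0) / s z none) ^ n :=
      (hXU r m n (by omega) (s z) x1).2.2.1 x3 j
    have h2 : u z ≠ 0 := div_ne_zero hz x3
    have h3 : cb c S om j (u z ^ 2) (u z) 1 = u z • rot c S (om j) (u z) := by
      simp only [cb, rot, smul_add, smul_smul, mul_inv_cancel₀ h2, sq]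
      abel
    have h4 : k z * u z = (∏ i, s z (some i)) * s z none ^ (4 * m) := by
      rw [← Finset.mul_prod_erase Finset.univ (fun i => s z (some i)) (Finset.mem_univ j)]
      have h5 : s z none * u z = s z (some j) := mul_div_cancel₀ _ x3
      rw [← h5]
      simp only [hk]
      ring
    change k z • F (tp j + u z ^ n) (cb c S om j (u z ^ 2) (u z) 1 x) =
      _ • F _ (rot c S (om j) (u z) x)
    rw [h3, h1, ← h4, ← smul_smul (k z) (u z)]
    exact congrArg (k z • ·) (map_smul (F _) (u z) (rot c S (om j) (u z) x))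
  · have h1 : u z ^ (n - 2) = 0 := by
      simp only [hu, hz, zero_div]
      exact zero_pow (by omega)
    change Eb c S om F j (s z) (A z) (Cj z) (some (some j)) x = k z • x
    simp only [Eb, if_true, hCj, h1, zsm, add_zero]
    rfl
  · obtain ⟨y1, -, y3, -⟩ := hP.cell j (u z) x5 x hx
    have y4 : ContDiffAt ℝ ∞ u z := (x6.contDiffAt (n := ∞)).restrict_scalars ℝ
    refine ⟨?_, ?_⟩
    · exact ContDiffAt.comp (z, x) (g := fc j) (f := fun q : ℂ × V (Fin r) => (u q.1, q.2)) y1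
        ((ContDiffAt.comp (z, x) (g := u) (f := Prod.fst) y4 contDiffAt_fst).prodMk contDiffAt_snd)
    · have y5 : ContDiffAt ℝ 2 (fun y => fc j (y, x)) (u z) :=
        (ContDiffAt.comp (u z) (g := fc j) (f := fun y : ℂ => (y, x)) y1
          (contDiffAt_id.prodMk contDiffAt_const)).of_le (WithTop.coe_le_coe.mpr (le_top : (2 : ℕ∞) ≤ ⊤))
      have y6 := hLV.one (fun y => fc j (y, x)) u z x6 y5
      change lap (fun y => fc j (u y, x)) z < 0
      rw [y6]
      exact mul_neg_of_pos_of_neg (pow_pos (norm_pos_iff.mpr x2) 2) y3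

end

end Pool.Agent.MP_fcd29e_an.H98
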